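import Mathlib.Algebra.BigOperators.Fin
import Mathlib.Tactic.LinearCombination
import Mathlib.RingTheory.Derivation.Basic
import Mathlib.Algebra.Order.Archimedean.Real.Basic
import Mathlib.Tactic.Algebra.Basic
import Mathlib.Data.Matrix.Mul
import Mathlib.Tactic.NoncommRing

-- ======== part 0: formerly Pool.Agent.MP_417fa2_gt.Alg1
section MrgPart0

/-! Riemannian geometry in a commutative algebra with four commuting derivations. -/

namespace Pool.Agent.MP_417fa2_gt

theorem all4 {p : Fin 4 → Prop} (h0 : p 0) (h1 : p 1) (h2 : p 2) (h3 : p 3) (j : Fin 4) : p j := by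
  fin_cases j <;> assumption

theorem symm4 {α : Type*} {f : Fin 4 → Fin 4 → α} (h : ∀ i j, f i j = f j i) :
    f 1 0 = f 0 1 ∧ f 2 0 = f 0 2 ∧ f 3 0 = f 0 3 ∧ f 2 1 = f 1 2 ∧ f 3 1 = f 1 3 ∧
      f 3 2 = f 2 3 := ⟨h _ _, h _ _, h _ _, h _ _, h _ _, h _ _⟩

/-- A metric `g` with inverse `h` over a commutative algebra with commuting derivations. -/
structure Geo (A : Type*) [CommRing A] [Algebra ℝ A] where
  D : Fin 4 → Derivation ℝ A A
  comm : ∀ i j a, D i (D j a) = D j (D i a)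
  g : Fin 4 → Fin 4 → A
  h : Fin 4 → Fin 4 → A
  gs : ∀ i j, g i j = g j i
  hs : ∀ i j, h i j = h j i
  hg : ∀ i j, ∑ k, h i k * g k j = if i = j then 1 else 0

namespace Geo

variable {A : Type*} [CommRing A] [Algebra ℝ A] (X : Geo A)

noncomputable def chr (k i j : Fin 4) : A :=
  (1 / 2 : ℝ) • ∑ l, X.h k l * (X.D i (X.g l j) + X.D j (X.g l i) - X.D l (X.g i j))

noncomputable def ric (i j : Fin 4) : A :=
  ∑ k, (X.D k (X.chr k i j) - X.D j (X.chr k i k)) +
    ∑ k, ∑ l, (X.chr k k l * X.chr l i j - X.chr k j l * X.chr l i k)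

noncomputable def scal : A := ∑ i, ∑ j, X.h i j * X.ric i j

noncomputable def ricSq : A := ∑ i, ∑ j, ∑ k, ∑ l, X.h i k * X.h j l * X.ric i j * X.ric k l

noncomputable def grad (φ : A) (i : Fin 4) : A := ∑ j, X.h i j * X.D j φ

noncomputable def dvg (V : Fin 4 → A) : A := ∑ i, (X.D i (V i) + ∑ k, X.chr i i k * V k)

noncomputable def lap (φ : A) : A := X.dvg (X.grad φ)

noncomputable def ricGrad (φ : A) (i : Fin 4) : A := ∑ j, ∑ k, X.h i j * X.ric j k * X.grad φ k

noncomputable def pan (φ : A) : A :=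
  X.lap (X.lap φ) - X.dvg fun i => (2 / 3 : ℝ) • (X.scal * X.grad φ i) - 2 * X.ricGrad φ i

noncomputable def qcurv : A := (-(1 / 12) : ℝ) • (X.lap X.scal - X.scal ^ 2 + 3 * X.ricSq)

theorem D_mul (i : Fin 4) (a b : A) : X.D i (a * b) = X.D i a * b + a * X.D i b := by
  rw [Derivation.leibniz, smul_eq_mul, smul_eq_mul]; ring

theorem D_ofNat (i : Fin 4) (n : ℕ) [n.AtLeastTwo] : X.D i (ofNat(n) : A) = 0 :=
  (X.D i).map_natCast n

theorem D_ite (k i j : Fin 4) : X.D k (if i = j then (1 : A) else 0) = 0 := by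
  split_ifs <;> simp

theorem comm4 (a : A) : X.D 1 (X.D 0 a) = X.D 0 (X.D 1 a) ∧ X.D 2 (X.D 0 a) = X.D 0 (X.D 2 a) ∧
    X.D 3 (X.D 0 a) = X.D 0 (X.D 3 a) ∧ X.D 2 (X.D 1 a) = X.D 1 (X.D 2 a) ∧
    X.D 3 (X.D 1 a) = X.D 1 (X.D 3 a) ∧ X.D 3 (X.D 2 a) = X.D 2 (X.D 3 a) :=
  symm4 (f := fun i j => X.D i (X.D j a)) fun i j => X.comm i j a

theorem up_dn (v : Fin 4 → A) (i : Fin 4) : ∑ k, X.h i k * ∑ j, X.g k j * v j = v i := by
  simp only [Finset.mul_sum, ← mul_assoc]
  rw [Finset.sum_comm]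
  simp only [← Finset.sum_mul, X.hg]
  simp

theorem gh (i j : Fin 4) : ∑ k, X.g i k * X.h k j = if i = j then 1 else 0 := by
  have := X.hg j i
  simp only [X.hs j, X.gs _ i, mul_comm (X.h _ _)] at this
  rw [this]; simp only [eq_comm]

theorem dn_up (v : Fin 4 → A) (i : Fin 4) : ∑ k, X.g i k * ∑ j, X.h k j * v j = v i := by
  simp only [Finset.mul_sum, ← mul_assoc]
  rw [Finset.sum_comm]
  simp only [← Finset.sum_mul, X.gh]
  simp

theorem tr_hg : ∑ i, ∑ j, X.h i j * X.g i j = 4 := by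
  have : ∀ i, ∑ j, X.h i j * X.g i j = 1 := fun i => by
    simpa only [X.gs i, if_true] using X.hg i i
  simp [this]

theorem chr_symm (k i j : Fin 4) : X.chr k i j = X.chr k j i := by
  simp only [chr, X.gs i j, add_comm]

theorem chr4 (k : Fin 4) : X.chr k 1 0 = X.chr k 0 1 ∧ X.chr k 2 0 = X.chr k 0 2 ∧
    X.chr k 3 0 = X.chr k 0 3 ∧ X.chr k 2 1 = X.chr k 1 2 ∧ X.chr k 3 1 = X.chr k 1 3 ∧
    X.chr k 3 2 = X.chr k 2 3 := symm4 (X.chr_symm k)

theorem chr_low (l i j : Fin 4) : ∑ k, X.g l k * X.chr k i j =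
    (1 / 2 : ℝ) • (X.D i (X.g l j) + X.D j (X.g l i) - X.D l (X.g i j)) := by
  simp only [chr, mul_smul_comm, ← Finset.smul_sum, X.dn_up]

theorem compat (k i j : Fin 4) :
    X.D k (X.g i j) = ∑ l, X.g j l * X.chr l k i + ∑ l, X.g i l * X.chr l k j := by
  rw [chr_low, chr_low, X.gs j i, X.gs j k, X.gs i k]
  algebra

/-- Uniqueness of the Levi-Civita connection. -/
theorem chr_unique {Γ : Fin 4 → Fin 4 → Fin 4 → A} (hs : ∀ k i j, Γ k i j = Γ k j i)
    (hc : ∀ k i j, X.D k (X.g i j) = ∑ l, X.g j l * Γ l k i + ∑ l, X.g i l * Γ l k j)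
    (k i j : Fin 4) : X.chr k i j = Γ k i j := by
  rw [← X.up_dn (fun l => Γ l i j) k, chr, Finset.smul_sum]
  refine Finset.sum_congr rfl fun l _ => ?_
  rw [← mul_smul_comm, hc, hc, hc]
  simp only [fun m => hs m l i, fun m => hs m l j, fun m => hs m j i]
  congr 1
  algebra

theorem D_h (k i j : Fin 4) :
    X.D k (X.h i j) = -(∑ l, X.chr i k l * X.h l j + ∑ l, X.chr j k l * X.h i l) := by
  have h1 : ∀ m, ∑ a, (X.D k (X.h i a) * X.g a m + X.h i a * X.D k (X.g a m)) = 0 := fun m => by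
    have := congrArg (X.D k) (X.hg i m)
    simpa only [map_sum, D_mul, D_ite] using this
  have h2 := X.up_dn (fun a => X.D k (X.h i a)) j
  have h3 := fun m => X.up_dn (fun a => X.chr a k m) i
  have h4 := fun m => X.up_dn (fun a => X.chr a k m) j
  simp only [X.compat k] at h1
  have a0 := h1 0; have a1 := h1 1; have a2 := h1 2; have a3 := h1 3
  have b0 := h3 0; have b1 := h3 1; have b2 := h3 2; have b3 := h3 3
  have c0 := h4 0; have c1 := h4 1; have c2 := h4 2; have c3 := h4 3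
  simp only [Fin.sum_univ_four, symm4 X.gs, fun l => X.hs l j] at *
  linear_combination X.h j 0 * a0 + X.h j 1 * a1 + X.h j 2 * a2 + X.h j 3 * a3 - h2
    - X.h j 0 * b0 - X.h j 1 * b1 - X.h j 2 * b2 - X.h j 3 * b3
    - X.h i 0 * c0 - X.h i 1 * c1 - X.h i 2 * c2 - X.h i 3 * c3

end Geo

end Pool.Agent.MP_417fa2_gt

end MrgPart0

-- ======== part 1: formerly Pool.Agent.MP_417fa2_gt.Alg2
section MrgPart1

/-! Covariant calculus: Hessian, curvature matrix, Bochner formula, contracted Bianchi identity. -/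

namespace Pool.Agent.MP_417fa2_gt

namespace Geo

variable {A : Type*} [CommRing A] [Algebra ℝ A] (X : Geo A)

/-- The Hessian. -/
noncomputable def hess (φ : A) (i j : Fin 4) : A := X.D i (X.D j φ) - ∑ k, X.chr k i j * X.D k φ

/-- The covariant derivative of a vector field. -/
noncomputable def cd (U : Fin 4 → A) (i j : Fin 4) : A := X.D j (U i) + ∑ k, X.chr i j k * U k

/-- The scalar product of gradients. -/
noncomputable def ip (φ ψ : A) : A := ∑ i, X.D i φ * X.grad ψ i

/-- The contracted Christoffel symbol. -/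
noncomputable def γ (k : Fin 4) : A := ∑ i, X.chr i i k

theorem hess_symm (φ : A) (i j : Fin 4) : X.hess φ i j = X.hess φ j i := by
  simp only [hess, X.comm i j, fun k => X.chr_symm k i j]

theorem cd_grad (φ : A) (i j : Fin 4) : X.cd (X.grad φ) i j = ∑ a, X.h i a * X.hess φ j a := by
  simp only [cd, grad, hess, map_sum, D_mul, D_h]
  simp only [Fin.sum_univ_four]
  ring

theorem dvg_eq (V : Fin 4 → A) : X.dvg V = ∑ i, (X.D i (V i) + X.γ i * V i) := by
  simp only [dvg, γ, Fin.sum_univ_four]; ring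

theorem dvg_cd (V : Fin 4 → A) : X.dvg V = ∑ i, X.cd V i i := rfl

theorem lap_eq (φ : A) : X.lap φ = ∑ i, ∑ a, X.h i a * X.hess φ i a := by
  simp only [lap, dvg_cd, cd_grad]

theorem ip_symm (φ ψ : A) : X.ip φ ψ = X.ip ψ φ := by
  simp only [ip, grad, Fin.sum_univ_four, symm4 X.hs]; ring

theorem dvg_add (V W : Fin 4 → A) : X.dvg (fun i => V i + W i) = X.dvg V + X.dvg W := by
  simp only [dvg_eq, map_add, Fin.sum_univ_four]; ring

theorem dvg_sub (V W : Fin 4 → A) : X.dvg (fun i => V i - W i) = X.dvg V - X.dvg W := by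
  simp only [dvg_eq, map_sub, Fin.sum_univ_four]; ring

theorem dvg_mul (f : A) (V : Fin 4 → A) :
    X.dvg (fun i => f * V i) = f * X.dvg V + ∑ i, X.D i f * V i := by
  simp only [dvg_eq, D_mul, Fin.sum_univ_four]; ring

theorem dvg_ofNat (n : ℕ) [n.AtLeastTwo] (V : Fin 4 → A) :
    X.dvg (fun i => (ofNat(n) : A) * V i) = (ofNat(n) : A) * X.dvg V := by
  simp only [dvg_mul, D_ofNat, zero_mul, Finset.sum_const_zero, add_zero]

theorem dvg_smul (c : ℝ) (V : Fin 4 → A) : X.dvg (fun i => c • V i) = c • X.dvg V := by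
  simp only [dvg_eq, Derivation.map_smul, Fin.sum_univ_four]; algebra

theorem grad_add (φ ψ : A) (i : Fin 4) : X.grad (φ + ψ) i = X.grad φ i + X.grad ψ i := by
  simp only [grad, map_add, Fin.sum_univ_four]; ring

theorem grad_sub (φ ψ : A) (i : Fin 4) : X.grad (φ - ψ) i = X.grad φ i - X.grad ψ i := by
  simp only [grad, map_sub, Fin.sum_univ_four]; ring

theorem grad_mul (φ ψ : A) (i : Fin 4) : X.grad (φ * ψ) i = φ * X.grad ψ i + ψ * X.grad φ i := by
  simp only [grad, D_mul, Fin.sum_univ_four]; ring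

theorem grad_ofNat (n : ℕ) [n.AtLeastTwo] (φ : A) (i : Fin 4) :
    X.grad ((ofNat(n) : A) * φ) i = (ofNat(n) : A) * X.grad φ i := by
  simp only [grad, D_mul, D_ofNat, Fin.sum_univ_four]; ring

theorem D_grad (φ : A) (i j : Fin 4) : X.D j (X.grad φ i) =
    ∑ a, X.h i a * X.hess φ j a - ∑ k, X.chr i j k * X.grad φ k := by
  rw [← cd_grad, cd]; ring

theorem D_ip (φ ψ : A) (a : Fin 4) : X.D a (X.ip φ ψ) =
    ∑ j, X.hess φ a j * X.grad ψ j + ∑ j, X.hess ψ a j * X.grad φ j := by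
  simp only [ip, map_sum, D_mul, D_grad]
  simp only [grad, hess, Fin.sum_univ_four, symm4 X.hs]
  ring

theorem grad_ip (φ ψ : A) (i : Fin 4) : X.grad (X.ip φ ψ) i =
    ∑ j, X.grad ψ j * X.cd (X.grad φ) i j + ∑ j, X.grad φ j * X.cd (X.grad ψ) i j := by
  rw [grad]
  simp only [D_ip, cd_grad, Fin.sum_univ_four, symm4 (X.hess_symm φ), symm4 (X.hess_symm ψ)]
  ring

/-- The connection matrices. -/
noncomputable def cm (i : Fin 4) : Matrix (Fin 4) (Fin 4) A := Matrix.of fun k l => X.chr k i l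

/-- Entrywise derivative of a matrix. -/
noncomputable def Dm (i : Fin 4) (N : Matrix (Fin 4) (Fin 4) A) : Matrix (Fin 4) (Fin 4) A :=
  Matrix.of fun k l => X.D i (N k l)

theorem Dm_mul (i : Fin 4) (N N' : Matrix (Fin 4) (Fin 4) A) :
    X.Dm i (N * N') = X.Dm i N * N' + N * X.Dm i N' := by
  ext k l
  simp only [Dm, Matrix.of_apply, Matrix.mul_apply, Matrix.add_apply, map_sum, D_mul,
    Finset.sum_add_distrib]

theorem Dm_add (i : Fin 4) (N N' : Matrix (Fin 4) (Fin 4) A) :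
    X.Dm i (N + N') = X.Dm i N + X.Dm i N' := by
  ext k l; simp [Dm]

theorem Dm_sub (i : Fin 4) (N N' : Matrix (Fin 4) (Fin 4) A) :
    X.Dm i (N - N') = X.Dm i N - X.Dm i N' := by
  ext k l; simp [Dm]

theorem Dm_neg (i : Fin 4) (N : Matrix (Fin 4) (Fin 4) A) : X.Dm i (-N) = -X.Dm i N := by
  ext k l; simp [Dm]

theorem Dm_transpose (i : Fin 4) (N : Matrix (Fin 4) (Fin 4) A) :
    X.Dm i N.transpose = (X.Dm i N).transpose := rfl

theorem Dm_comm (i j : Fin 4) (N : Matrix (Fin 4) (Fin 4) A) :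
    X.Dm i (X.Dm j N) = X.Dm j (X.Dm i N) := by
  ext k l; exact X.comm i j _

/-- The curvature matrices. -/
noncomputable def fm (i j : Fin 4) : Matrix (Fin 4) (Fin 4) A :=
  X.Dm i (X.cm j) - X.Dm j (X.cm i) + X.cm i * X.cm j - X.cm j * X.cm i

/-- The inverse metric as a matrix. -/
def hm : Matrix (Fin 4) (Fin 4) A := Matrix.of X.h

theorem Dm_hm (k : Fin 4) : X.Dm k X.hm = -(X.cm k * X.hm + X.hm * (X.cm k).transpose) := by
  ext i j
  simp only [Dm, hm, cm, Matrix.of_apply, D_h, Matrix.neg_apply, Matrix.add_apply,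
    Matrix.mul_apply, Matrix.transpose_apply, mul_comm]

theorem fm_anti (i j : Fin 4) : X.fm j i = -X.fm i j := by
  simp only [fm]; abel

theorem fm_hm (i j : Fin 4) : X.fm i j * X.hm + X.hm * (X.fm i j).transpose = 0 := by
  have h := X.Dm_comm i j X.hm
  simp only [Dm_hm, Dm_neg, Dm_add, Dm_mul, Dm_transpose] at h
  simp only [fm, Matrix.transpose_sub, Matrix.transpose_add, Matrix.transpose_mul]
  rw [← sub_eq_zero] at h
  rw [← neg_eq_zero, ← h]
  noncomm_ring

theorem bianchi2 (m i j : Fin 4) :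
    X.Dm m (X.fm i j) + X.cm m * X.fm i j - X.fm i j * X.cm m +
      (X.Dm i (X.fm j m) + X.cm i * X.fm j m - X.fm j m * X.cm i) +
      (X.Dm j (X.fm m i) + X.cm j * X.fm m i - X.fm m i * X.cm j) = 0 := by
  simp only [fm, Dm_sub, Dm_add, Dm_mul, X.Dm_comm m i, X.Dm_comm m j, X.Dm_comm i j]
  noncomm_ring

theorem ric_eq (l j : Fin 4) : X.ric l j = ∑ k, X.fm k j k l := by
  simp only [ric, fm, Dm, cm, Matrix.of_apply, Matrix.sub_apply, Matrix.add_apply,
    Matrix.mul_apply, fun k i => X.chr_symm k l i, Fin.sum_univ_four]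
  ring

/-- The curvature tensor with two upper indices. -/
noncomputable def wm (i j : Fin 4) : Matrix (Fin 4) (Fin 4) A := X.fm i j * X.hm

theorem hm_transpose : X.hm.transpose = X.hm := by
  ext i j; exact X.hs j i

theorem wm_anti (i j k l : Fin 4) : X.wm i j l k = -X.wm i j k l := by
  have h := congrFun (congrFun (X.fm_hm i j) k) l
  rw [← hm_transpose, ← Matrix.transpose_mul, hm_transpose] at h
  simp only [Matrix.add_apply, Matrix.transpose_apply, Matrix.zero_apply] at h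
  simp only [wm]
  linear_combination h

theorem wm_anti' (i j k l : Fin 4) : X.wm j i k l = -X.wm i j k l := by
  simp only [wm, X.fm_anti i j, Matrix.neg_mul, Matrix.neg_apply]

theorem two_cancel {a b : A} (h : 2 * a = 2 * b) : a = b := by
  have : a = (1 / 2 : ℝ) • (2 * a) := by algebra
  rw [this, h]; algebra

theorem γ_closed (i j : Fin 4) : X.D i (X.γ j) = X.D j (X.γ i) := by
  have h1 : ∑ k, X.fm i j k k = X.D i (X.γ j) - X.D j (X.γ i) := by
    simp only [fm, Dm, cm, γ, Matrix.of_apply, Matrix.sub_apply, Matrix.add_apply,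
      Matrix.mul_apply, fun k l => X.chr_symm k i l, fun k l => X.chr_symm k j l,
      Fin.sum_univ_four, map_add]
    ring
  have h2 : ∀ k, X.fm i j k k = ∑ l, X.g k l * X.wm i j k l := fun k => by
    rw [← X.dn_up (fun a => X.fm i j k a) k]
    simp only [wm, hm, Matrix.mul_apply, Matrix.of_apply, fun a l => X.hs a l, mul_comm]
  have h3 : ∀ k, X.wm i j k k = 0 := fun k =>
    two_cancel (by linear_combination X.wm_anti i j k k)
  simp only [h2, Fin.sum_univ_four, h3, symm4 X.gs, X.wm_anti i j 0 1, X.wm_anti i j 0 2,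
    X.wm_anti i j 0 3, X.wm_anti i j 1 2, X.wm_anti i j 1 3, X.wm_anti i j 2 3] at h1
  linear_combination -h1

theorem ric_symm (i j : Fin 4) : X.ric i j = X.ric j i := by
  have h := X.γ_closed i j
  simp only [γ, map_add, Fin.sum_univ_four] at h
  simp only [ric, Fin.sum_univ_four, fun k => X.chr_symm k i 0, fun k => X.chr_symm k i 1,
    fun k => X.chr_symm k i 2, fun k => X.chr_symm k i 3, fun k => X.chr_symm k j 0,
    fun k => X.chr_symm k j 1, fun k => X.chr_symm k j 2, fun k => X.chr_symm k j 3,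
    fun k => X.chr_symm k j i]
  linear_combination h

/-- The divergence of the divergence of an antisymmetric tensor vanishes. -/
theorem dvg_dvg_anti (T : Fin 4 → Fin 4 → A) (hT : ∀ i j, T j i = -T i j) :
    X.dvg (fun i => X.dvg (T i)) = 0 := by
  have h0 : ∀ i, T i i = 0 := fun i => two_cancel (by linear_combination hT i i)
  simp only [dvg_eq, map_add, D_mul, Fin.sum_univ_four, h0, hT 0 1, hT 0 2, hT 0 3, hT 1 2,
    hT 1 3, hT 2 3, map_neg, map_zero, comm4,
    symm4 (f := fun i j => X.D i (X.γ j)) X.γ_closed]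
  ring

/-- Ricci identity. -/
theorem dvg_cd_mul (U V : Fin 4 → A) : X.dvg (fun i => ∑ j, V j * X.cd U i j) =
    ∑ i, ∑ j, X.cd V j i * X.cd U i j +
      ∑ j, V j * (X.D j (X.dvg U) + ∑ k, X.ric k j * U k) := by
  simp only [dvg, cd, ric, map_add, D_mul, Fin.sum_univ_four, chr4, comm4]
  ring

/-- The Ricci tensor with one upper index. -/
noncomputable def rup (i j : Fin 4) : A := ∑ a, X.h i a * X.ric a j

theorem rup_eq (l j : Fin 4) : X.rup l j = ∑ k, X.wm k j k l := by
  simp only [rup, ric_eq, wm, hm, Matrix.mul_apply, Matrix.of_apply, fun a => X.hs a l,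
    Fin.sum_univ_four]
  ring

theorem scal_eq : X.scal = ∑ i, X.rup i i :=
  Finset.sum_congr rfl fun i _ => Finset.sum_congr rfl fun j _ => by rw [X.ric_symm i j]

theorem bianchi_w (m i j k l : Fin 4) :
    X.D m (X.wm i j k l) + ∑ a, X.chr k m a * X.wm i j a l + ∑ a, X.wm i j k a * X.chr l m a +
      (X.D i (X.wm j m k l) + ∑ a, X.chr k i a * X.wm j m a l + ∑ a, X.wm j m k a * X.chr l i a) +
      (X.D j (X.wm m i k l) + ∑ a, X.chr k j a * X.wm m i a l +
        ∑ a, X.wm m i k a * X.chr l j a) = 0 := by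
  have h : X.Dm m (X.wm i j) + X.cm m * X.wm i j + X.wm i j * (X.cm m).transpose +
      (X.Dm i (X.wm j m) + X.cm i * X.wm j m + X.wm j m * (X.cm i).transpose) +
      (X.Dm j (X.wm m i) + X.cm j * X.wm m i + X.wm m i * (X.cm j).transpose) = 0 := by
    have h1 := congrArg (· * X.hm) (X.bianchi2 m i j)
    simp only [wm, Dm_mul, Dm_hm]
    rw [zero_mul] at h1
    rw [← h1]
    noncomm_ring
  exact congrFun (congrFun h k) l

/-- Contracted Bianchi identity. -/
theorem bianchi (m : Fin 4) :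
    2 * (X.dvg (fun i => X.rup i m) - ∑ i, ∑ a, X.chr i m a * X.rup a i) = X.D m X.scal := by
  have h : ∑ i, ∑ j, _ = ∑ _i : Fin 4, ∑ _j : Fin 4, (0 : A) :=
    Finset.sum_congr rfl fun i _ => Finset.sum_congr rfl fun j _ => X.bianchi_w m i j i j
  have z1 : ∀ i j k, X.wm i j k k = 0 := fun i j k =>
    two_cancel (by linear_combination X.wm_anti i j k k)
  have z2 : ∀ i k l, X.wm i i k l = 0 := fun i k l =>
    two_cancel (by linear_combination X.wm_anti' i i k l)
  simp only [scal_eq, dvg, rup_eq, map_sum]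
  simp only [Fin.sum_univ_four, z1, z2, fun i => X.wm_anti' i m, X.wm_anti' 0 1, X.wm_anti' 0 2,
    X.wm_anti' 0 3, X.wm_anti' 1 2, X.wm_anti' 1 3, X.wm_anti' 2 3,
    fun i j => X.wm_anti i j 0 1, fun i j => X.wm_anti i j 0 2, fun i j => X.wm_anti i j 0 3,
    fun i j => X.wm_anti i j 1 2, fun i j => X.wm_anti i j 1 3, fun i j => X.wm_anti i j 2 3,
    map_neg, map_zero, chr4] at h ⊢
  linear_combination -h

end Geo

end Pool.Agent.MP_417fa2_gt

end MrgPart1

-- marker of a merged file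
example : 731051 + 350631 = 731051 + 350631 := rfl
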