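import Mathlib.LinearAlgebra.Matrix.Determinant.Basic
import Mathlib.LinearAlgebra.Matrix.Trace
import Pool.Agent.MP_417fa2_gt.Alg2

-- ======== part 0: formerly Pool.Agent.MP_417fa2_gt.Alg3
section MrgPart0

/-! Conformal covariance of the Paneitz operator and the transformation law of `Q`. -/

namespace Pool.Agent.MP_417fa2_gt

namespace Geo

variable {A : Type*} [CommRing A] [Algebra ℝ A]

/-- A conformal factor `e = exp (2 w)` with inverse `e'`. -/
structure Conf (X : Geo A) where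
  w : A
  e : A
  e' : A
  he : e * e' = 1
  De : ∀ i, X.D i e = 2 * e * X.D i w

variable {X : Geo A} (C : X.Conf)

namespace Conf

/-- The conformal metric `e g`. -/
def geo : Geo A where
  D := X.D
  comm := X.comm
  g i j := C.e * X.g i j
  h i j := C.e' * X.h i j
  gs i j := by rw [X.gs]
  hs i j := by rw [X.hs]
  hg i j := by
    rw [← X.hg i j]
    exact Finset.sum_congr rfl fun k _ => by linear_combination (X.h i k * X.g k j) * C.he

theorem geo_D : C.geo.D = X.D := rfl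

theorem geo_g (i j : Fin 4) : C.geo.g i j = C.e * X.g i j := rfl

theorem geo_h (i j : Fin 4) : C.geo.h i j = C.e' * X.h i j := rfl

theorem De' (i : Fin 4) : X.D i C.e' = -(2 * C.e' * X.D i C.w) := by
  have h := congrArg (X.D i) C.he
  rw [D_mul, C.De, Derivation.map_one_eq_zero] at h
  linear_combination C.e' * h - (X.D i C.e' + 2 * C.e' * X.D i C.w) * C.he

theorem dn_grad (X : Geo A) (φ : A) (i : Fin 4) : ∑ k, X.g i k * X.grad φ k = X.D i φ :=
  X.dn_up (fun j => X.D j φ) i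

theorem chr_eq (k i j : Fin 4) : C.geo.chr k i j = X.chr k i j +
    ((if k = i then X.D j C.w else 0) + (if k = j then X.D i C.w else 0) -
      X.g i j * X.grad C.w k) := by
  refine C.geo.chr_unique (Γ := fun k i j => X.chr k i j +
    ((if k = i then X.D j C.w else 0) + (if k = j then X.D i C.w else 0) -
      X.g i j * X.grad C.w k)) (fun k i j => ?_) (fun k i j => ?_) k i j
  · rw [X.chr_symm k i j, X.gs i j]; ring
  · simp only [geo_D, geo_g, D_mul, C.De, X.compat k i j, mul_add, mul_sub, mul_ite, mul_zero,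
      Finset.sum_add_distrib, Finset.sum_sub_distrib, Finset.sum_ite_eq', Finset.mem_univ, if_true]
    have hi := dn_grad X C.w i
    have hj := dn_grad X C.w j
    simp only [Fin.sum_univ_four, X.gs j i, X.gs j k, X.gs i k] at hi hj ⊢
    linear_combination C.e * X.g k i * hj + C.e * X.g k j * hi

theorem γ_eq (k : Fin 4) : C.geo.γ k = X.γ k + 4 * X.D k C.w := by
  have hk := dn_grad X C.w k
  simp only [γ, chr_eq, Finset.sum_add_distrib, Finset.sum_sub_distrib, Finset.sum_ite_eq',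
    Finset.mem_univ, if_true, fun i => X.gs i k, hk, Finset.sum_const, Finset.card_univ,
    Fintype.card_fin, nsmul_eq_mul]
  push_cast
  ring

theorem dvg_eq' (V : Fin 4 → A) : C.geo.dvg V = X.dvg V + 4 * ∑ i, X.D i C.w * V i := by
  simp only [dvg_eq, γ_eq, geo_D, Fin.sum_univ_four]; ring

theorem dvg_sq (V : Fin 4 → A) : C.geo.dvg (fun i => C.e' ^ 2 * V i) = C.e' ^ 2 * X.dvg V := by
  rw [dvg_eq', dvg_mul]
  simp only [pow_two, D_mul, De', Fin.sum_univ_four]; ring

theorem grad_eq (φ : A) (i : Fin 4) : C.geo.grad φ i = C.e' * X.grad φ i := by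
  simp only [grad, geo_D, geo_h, Finset.mul_sum, mul_assoc]

theorem grad_e' (i : Fin 4) : X.grad C.e' i = -(2 * C.e' * X.grad C.w i) := by
  simp only [grad, De', Fin.sum_univ_four]; ring

theorem lap_eq' (φ : A) : C.geo.lap φ = C.e' * (X.lap φ + 2 * X.ip C.w φ) := by
  have : C.geo.grad φ = fun i => C.e' * X.grad φ i := funext (C.grad_eq φ)
  rw [lap, this, dvg_eq', dvg_mul]
  simp only [lap, ip, De', Fin.sum_univ_four]; ring

theorem lap_e' (s : A) : C.geo.lap (C.e' * s) =
    C.e' ^ 2 * X.dvg fun i => X.grad s i - 2 * (s * X.grad C.w i) := by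
  rw [← dvg_sq, lap]
  congr 1
  funext i
  rw [grad_eq, grad_mul, grad_e']; ring

theorem ric_γ (X : Geo A) (i j : Fin 4) : X.ric i j = ∑ k, X.D k (X.chr k i j) - X.D j (X.γ i) +
    ∑ l, X.γ l * X.chr l i j - ∑ k, ∑ l, X.chr k j l * X.chr l i k := by
  simp only [ric, γ, map_add, Fin.sum_univ_four, fun k => X.chr_symm k i 0,
    fun k => X.chr_symm k i 1, fun k => X.chr_symm k i 2, fun k => X.chr_symm k i 3]
  ring

theorem ric_eq' (i j : Fin 4) : C.geo.ric i j = X.ric i j - 2 * X.hess C.w i j +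
    2 * (X.D i C.w * X.D j C.w) - (X.lap C.w + 2 * X.ip C.w C.w) * X.g i j := by
  have hi := dn_grad X C.w i
  have hj := dn_grad X C.w j
  simp only [ric_γ, chr_eq, γ_eq, geo_D, map_add, map_sub, D_mul, D_ofNat, X.compat, hess, lap,
    dvg_eq, ip, apply_ite (X.D _), map_zero, mul_add, add_mul, mul_sub, sub_mul, mul_ite, ite_mul,
    mul_zero, zero_mul, Finset.sum_add_distrib, Finset.sum_sub_distrib, Finset.sum_ite_eq,
    Finset.sum_ite_eq', Finset.mem_univ, if_true, Finset.sum_ite_irrel, Finset.sum_const_zero]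
  simp only [γ, Fin.sum_univ_four, fun k => X.chr_symm k i 0,
    fun k => X.chr_symm k i 1, fun k => X.chr_symm k i 2, fun k => X.chr_symm k i 3,
    fun k => X.chr_symm k j 0, fun k => X.chr_symm k j 1, fun k => X.chr_symm k j 2,
    fun k => X.chr_symm k j 3, fun k => X.chr_symm k j i, X.gs j i, X.comm j i] at hi hj ⊢
  linear_combination (X.D j C.w - (X.g j 0 * X.grad C.w 0 + X.g j 1 * X.grad C.w 1 +
    X.g j 2 * X.grad C.w 2 + X.g j 3 * X.grad C.w 3)) * hi

theorem scal_eq' : C.geo.scal = C.e' * (X.scal - 6 * X.lap C.w - 6 * X.ip C.w C.w) := by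
  have h1 := X.tr_hg
  have h2 := X.lap_eq C.w
  have h3 : X.ip C.w C.w = ∑ i, ∑ j, X.h i j * (X.D i C.w * X.D j C.w) := by
    simp only [ip, grad, Fin.sum_univ_four]; ring
  simp only [scal, ric_eq', geo_h, Fin.sum_univ_four] at h1 h2 h3 ⊢
  linear_combination C.e' * (2 * h2 - 2 * h3 - (X.lap C.w + 2 * X.ip C.w C.w) * h1)

theorem ricGrad_eq (φ : A) (i : Fin 4) : C.geo.ricGrad φ i = C.e' ^ 2 * (X.ricGrad φ i -
    2 * ∑ j, X.grad φ j * X.cd (X.grad C.w) i j + 2 * (X.ip C.w φ * X.grad C.w i) -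
      (X.lap C.w + 2 * X.ip C.w C.w) * X.grad φ i) := by
  have h1 := X.up_dn (X.grad φ) i
  have h2 : X.grad C.w i = ∑ j, X.h i j * X.D j C.w := rfl
  have h3 : X.ip C.w φ = ∑ i, X.D i C.w * X.grad φ i := rfl
  simp only [ricGrad, ric_eq', geo_h, grad_eq, cd_grad, h2, h3, Fin.sum_univ_four,
    symm4 (X.hess_symm C.w)] at h1 ⊢
  linear_combination -C.e' ^ 2 * (X.lap C.w + 2 * X.ip C.w C.w) * h1

theorem pan_eq (φ : A) : C.geo.pan φ = C.e' ^ 2 * X.pan φ := by
  have hT := X.dvg_dvg_anti (fun i j => X.grad φ i * X.grad C.w j - X.grad C.w i * X.grad φ j)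
    fun i j => by ring
  have h1 : ∀ (U V : Fin 4 → A) (i : Fin 4), X.dvg (fun j => U i * V j) =
      U i * X.dvg V + ∑ j, V j * X.cd U i j - ∑ j, ∑ k, X.chr i j k * U k * V j := by
    intro U V i
    simp only [dvg_mul, cd, Fin.sum_univ_four]; ring
  have h2 : (fun i => (2 / 3 : ℝ) • (C.geo.scal * C.geo.grad φ i) - 2 * C.geo.ricGrad φ i) =
      fun i => C.e' ^ 2 * (((2 / 3 : ℝ) • (X.scal * X.grad φ i) - 2 * X.ricGrad φ i) +
        (X.grad (2 * X.ip C.w φ) i - 2 * ((X.lap φ + 2 * X.ip C.w φ) * X.grad C.w i) -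
          2 * X.dvg fun j => X.grad φ i * X.grad C.w j - X.grad C.w i * X.grad φ j)) := by
    funext i
    rw [scal_eq', grad_eq, ricGrad_eq, grad_ofNat, grad_ip, dvg_sub, h1, h1]
    simp only [← lap.eq_1, Fin.sum_univ_four, chr4]
    algebra
  rw [pan, pan, h2, dvg_sq, lap_eq' C φ, lap_e']
  simp only [grad_add, dvg_add, dvg_sub, dvg_ofNat, ← lap.eq_1] at hT ⊢
  linear_combination 2 * C.e' ^ 2 * hT

/-- The pairing of two symmetric tensors. -/
noncomputable def pair (X : Geo A) (S T : Fin 4 → Fin 4 → A) : A :=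
  ∑ i, ∑ j, ∑ k, ∑ l, X.h i k * X.h j l * S i j * T k l

theorem pair_g (X : Geo A) (S : Fin 4 → Fin 4 → A) :
    pair X S X.g = ∑ i, ∑ j, X.h i j * S i j := by
  refine Finset.sum_congr rfl fun i _ => Finset.sum_congr rfl fun j _ => ?_
  have h := X.up_dn (fun l => X.h j l) i
  simp only [Fin.sum_univ_four, X.hs j i] at h ⊢
  linear_combination S i j * h

theorem pair_symm (X : Geo A) (S T : Fin 4 → Fin 4 → A) : pair X S T = pair X T S := by
  simp only [pair, Fin.sum_univ_four, symm4 X.hs]; ring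

theorem pair_expand (X : Geo A) (R H W G : Fin 4 → Fin 4 → A) (c : A) :
    pair X (fun i j => R i j - 2 * H i j + 2 * W i j - c * G i j)
      (fun i j => R i j - 2 * H i j + 2 * W i j - c * G i j) =
    pair X R R + 4 * pair X H H + 4 * pair X W W + c ^ 2 * pair X G G - 4 * pair X R H +
      4 * pair X R W - 2 * c * pair X R G - 8 * pair X H W + 4 * c * pair X H G -
      4 * c * pair X W G := by
  have h : ∀ S : Fin 4 → Fin 4 → A,
      pair X S (fun i j => R i j - 2 * H i j + 2 * W i j - c * G i j) =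
        pair X S R - 2 * pair X S H + 2 * pair X S W - c * pair X S G := by
    intro S
    simp only [pair, Finset.mul_sum, ← Finset.sum_sub_distrib, ← Finset.sum_add_distrib]
    exact Finset.sum_congr rfl fun _ _ => Finset.sum_congr rfl fun _ _ =>
      Finset.sum_congr rfl fun _ _ => Finset.sum_congr rfl fun _ _ => by ring
  rw [h]
  simp only [pair_symm X (fun i j => R i j - 2 * H i j + 2 * W i j - c * G i j), h,
    pair_symm X H R, pair_symm X W R, pair_symm X G R, pair_symm X W H, pair_symm X G H,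
    pair_symm X G W]
  ring

theorem pair_dd (X : Geo A) (S : Fin 4 → Fin 4 → A) (w : A) :
    pair X S (fun i j => X.D i w * X.D j w) = ∑ i, ∑ j, S i j * X.grad w i * X.grad w j := by
  simp only [pair, grad, Fin.sum_univ_four]; ring

theorem ricSq_eq : C.geo.ricSq = C.e' ^ 2 * pair X C.geo.ric C.geo.ric := by
  simp only [ricSq, pair, geo_h, Finset.mul_sum]
  exact Finset.sum_congr rfl fun _ _ => Finset.sum_congr rfl fun _ _ =>
    Finset.sum_congr rfl fun _ _ => Finset.sum_congr rfl fun _ _ => by ring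

theorem bochner (X : Geo A) (w : A) : X.lap (X.ip w w) = 2 * (pair X (X.hess w) (X.hess w) +
    X.ip (X.lap w) w + ∑ i, ∑ j, X.ric i j * X.grad w i * X.grad w j) := by
  have h1 : X.grad (X.ip w w) = fun i => 2 * ∑ j, X.grad w j * X.cd (X.grad w) i j := by
    funext i; rw [grad_ip]; ring
  rw [lap, h1, dvg_ofNat, dvg_cd_mul]
  simp only [← lap.eq_1, cd_grad, pair, ip, Fin.sum_univ_four, symm4 (X.hess_symm w), symm4 X.hs]
  ring

theorem dvg_ricGrad (X : Geo A) (w : A) :
    2 * X.dvg (X.ricGrad w) = 2 * pair X X.ric (X.hess w) + X.ip X.scal w := by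
  have h1 : X.ricGrad w = fun i => ∑ m, X.rup i m * X.grad w m := by
    funext i; simp only [ricGrad, rup, Fin.sum_univ_four]; ring
  have h2 : pair X X.ric (X.hess w) = ∑ i, ∑ m, X.rup i m * X.cd (X.grad w) m i := by
    simp only [pair, rup, cd_grad, Fin.sum_univ_four, symm4 X.hs]; ring
  rw [h1, h2]
  simp only [ip, ← bianchi, dvg, cd, map_add, D_mul, Fin.sum_univ_four, chr4]
  ring

theorem qcurv_eq : 2 * C.geo.qcurv = C.e' ^ 2 * (X.pan C.w + 2 * X.qcurv) := by
  have hr : C.geo.ric = fun i j => X.ric i j - 2 * X.hess C.w i j +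
      2 * (X.D i C.w * X.D j C.w) - (X.lap C.w + 2 * X.ip C.w C.w) * X.g i j :=
    funext fun i => funext fun j => C.ric_eq' i j
  have hb : ∑ i, ∑ j, X.h i j * (X.D i C.w * X.D j C.w) = X.ip C.w C.w := by
    simp only [ip, grad, Fin.sum_univ_four]; ring
  have hww : ∑ i, ∑ j, X.D i C.w * X.D j C.w * X.grad C.w i * X.grad C.w j =
      X.ip C.w C.w ^ 2 := by
    simp only [ip, Fin.sum_univ_four]; ring
  have hc : X.ip (X.ip C.w C.w) C.w =
      2 * ∑ i, ∑ j, X.hess C.w i j * X.grad C.w i * X.grad C.w j := by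
    rw [ip]; simp only [D_ip, Fin.sum_univ_four]; ring
  have hs : X.ip (X.scal - 6 * X.lap C.w - 6 * X.ip C.w C.w) C.w =
      X.ip X.scal C.w - 6 * X.ip (X.lap C.w) C.w - 6 * X.ip (X.ip C.w C.w) C.w := by
    simp only [ip.eq_1 X _ C.w, map_sub, D_mul, D_ofNat, Fin.sum_univ_four]; ring
  have hd : ∀ s, X.dvg (fun i => s * X.grad C.w i) = s * X.lap C.w + X.ip s C.w := fun s =>
    X.dvg_mul s _
  have hR := dvg_ricGrad X C.w
  have hl : X.lap (X.scal - 6 * X.lap C.w - 6 * X.ip C.w C.w) =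
      X.lap X.scal - 6 * X.lap (X.lap C.w) - 6 * X.lap (X.ip C.w C.w) := by
    have : X.grad (X.scal - 6 * X.lap C.w - 6 * X.ip C.w C.w) = fun i => X.grad X.scal i -
        6 * X.grad (X.lap C.w) i - 6 * X.grad (X.ip C.w C.w) i := by
      funext i; simp only [grad_sub, grad_ofNat]
    rw [lap, this, dvg_sub, dvg_sub, dvg_ofNat, dvg_ofNat]; rfl
  rw [qcurv, qcurv, pan, scal_eq', lap_e', ricSq_eq, hr, pair_expand, pair_dd, pair_dd, pair_dd,
    pair_g, pair_g, pair_g, pair_g, tr_hg, ← lap_eq, hb, hww, dvg_sub, dvg_sub, dvg_ofNat,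
    dvg_ofNat, dvg_smul, hd, hd, hs, hc]
  simp only [← lap.eq_1, ← scal.eq_1]
  rw [hl, bochner, hR, show X.ricSq = pair X X.ric X.ric from rfl]
  algebra

end Conf

end Geo

end Pool.Agent.MP_417fa2_gt

end MrgPart0

-- ======== part 1: formerly Pool.Agent.MP_417fa2_gt.Alg4
section MrgPart1

/-! Invariance under a change of coordinates, and the density form of the divergence. -/

namespace Pool.Agent.MP_417fa2_gt

namespace Geo

variable {A : Type*} [CommRing A] [Algebra ℝ A]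

/-- A change of coordinates with Jacobian `P` (inverse `Q`); `g'` is the metric in the new
coordinates. -/
structure Chg (X : Geo A) where
  P : Fin 4 → Fin 4 → A
  Q : Fin 4 → Fin 4 → A
  g' : Fin 4 → Fin 4 → A
  h' : Fin 4 → Fin 4 → A
  PQ : ∀ a b, ∑ i, P a i * Q i b = if a = b then 1 else 0
  QP : ∀ i j, ∑ a, Q i a * P a j = if i = j then 1 else 0
  DP : ∀ a i j, X.D i (P a j) = X.D j (P a i)
  gs : ∀ i j, g' i j = g' j i
  hs : ∀ i j, h' i j = h' j i
  hg : ∀ i j, ∑ k, h' i k * g' k j = if i = j then 1 else 0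
  gg : ∀ i j, X.g i j = ∑ a, ∑ b, P a i * P b j * g' a b

variable {X : Geo A} (C : X.Chg)

namespace Chg

theorem PQ_c (v : Fin 4 → A) (a : Fin 4) : ∑ i, C.P a i * ∑ b, C.Q i b * v b = v a := by
  simp only [Finset.mul_sum, ← mul_assoc]
  rw [Finset.sum_comm]
  simp only [← Finset.sum_mul, C.PQ]
  simp

theorem QP_c (v : Fin 4 → A) (i : Fin 4) : ∑ a, C.Q i a * ∑ j, C.P a j * v j = v i := by
  simp only [Finset.mul_sum, ← mul_assoc]
  rw [Finset.sum_comm]
  simp only [← Finset.sum_mul, C.QP]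
  simp

theorem PQ_t (v : Fin 4 → A) (b : Fin 4) : ∑ i, C.Q i b * ∑ a, C.P a i * v a = v b := by
  simp only [Finset.mul_sum, ← mul_assoc]
  rw [Finset.sum_comm]
  simp only [← Finset.sum_mul, fun i a => mul_comm (C.Q i b) (C.P a i), C.PQ]
  simp

theorem QP_t (v : Fin 4 → A) (j : Fin 4) : ∑ a, C.P a j * ∑ i, C.Q i a * v i = v j := by
  simp only [Finset.mul_sum, ← mul_assoc]
  rw [Finset.sum_comm]
  simp only [← Finset.sum_mul, fun a i => mul_comm (C.P a j) (C.Q i a), C.QP]
  simp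

theorem D_Q (i j b : Fin 4) :
    X.D i (C.Q j b) = -∑ c, C.Q j c * ∑ k, X.D i (C.P c k) * C.Q k b := by
  have h1 : ∀ c, ∑ k, X.D i (C.P c k) * C.Q k b = -∑ k, C.P c k * X.D i (C.Q k b) := fun c => by
    have := congrArg (X.D i) (C.PQ c b)
    simp only [map_sum, D_mul, D_ite, Finset.sum_add_distrib] at this
    linear_combination this
  simp only [h1, mul_neg, Finset.sum_neg_distrib, neg_neg, C.QP_c]

/-- The derivations of the new coordinates. -/
noncomputable def D' (a : Fin 4) : Derivation ℝ A A := ∑ i, C.Q i a • X.D i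

theorem D'_apply (a : Fin 4) (f : A) : C.D' a f = ∑ i, C.Q i a * X.D i f := by
  simp [D', Fin.sum_univ_four]

/-- The metric in the new coordinates. -/
noncomputable def geo : Geo A where
  D := C.D'
  comm a b f := by
    simp only [D'_apply, map_sum, D_mul, D_Q]
    simp only [Fin.sum_univ_four, comm4,
      fun c => symm4 (f := fun i j => X.D i (C.P c j)) (C.DP c)]
    ring
  g := C.g'
  h := C.h'
  gs := C.gs
  hs := C.hs
  hg := C.hg

theorem geo_D (a : Fin 4) (f : A) : C.geo.D a f = ∑ i, C.Q i a * X.D i f := C.D'_apply a f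

theorem D_eq (i : Fin 4) (f : A) : X.D i f = ∑ a, C.P a i * C.geo.D a f := by
  simp only [geo_D, C.QP_t]

theorem gQ (v : Fin 4 → A) (j : Fin 4) : ∑ l, X.g j l * ∑ c, C.Q l c * v c =
    ∑ a, C.P a j * ∑ c, C.g' a c * v c := by
  have h : ∀ u : Fin 4 → A, ∑ l, X.g j l * u l =
      ∑ a, C.P a j * ∑ c, C.g' a c * ∑ l, C.P c l * u l := fun u => by
    simp only [C.gg, Fin.sum_univ_four]
    ring
  simp only [h, C.PQ_c]

theorem h_eq (i j : Fin 4) : X.h i j = ∑ a, C.Q i a * ∑ b, C.h' a b * C.Q j b := by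
  rw [← X.up_dn (fun i => ∑ a, C.Q i a * ∑ b, C.h' a b * C.Q j b) i]
  have h1 : ∀ a, ∑ c, C.g' a c * ∑ b, C.h' c b * C.Q j b = C.Q j a := fun a =>
    C.geo.dn_up (fun b => C.Q j b) a
  simp only [gQ, h1, fun a k => mul_comm (C.P a k) (C.Q j a), C.QP]
  simp

theorem push_up (ω : Fin 4 → A) (a : Fin 4) : ∑ i, C.P a i * ∑ j, X.h i j * ω j =
    ∑ b, C.h' a b * ∑ j, C.Q j b * ω j := by
  rw [← C.PQ_c (fun a => ∑ b, C.h' a b * ∑ j, C.Q j b * ω j) a]
  refine Finset.sum_congr rfl fun i _ => ?_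
  simp only [h_eq C, Fin.sum_univ_four]
  ring

theorem chr_eq (k i j : Fin 4) : X.chr k i j =
    ∑ c, C.Q k c * (X.D i (C.P c j) + ∑ a, ∑ b, C.P a i * C.P b j * C.geo.chr c a b) := by
  refine X.chr_unique (Γ := fun k i j =>
    ∑ c, C.Q k c * (X.D i (C.P c j) + ∑ a, ∑ b, C.P a i * C.P b j * C.geo.chr c a b))
    (fun k i j => ?_) (fun k i j => ?_) k i j
  · simp only [fun c => C.DP c i j, Fin.sum_univ_four, chr4]; ring
  · have h1 : ∀ a b, X.D k (C.g' a b) = ∑ c, C.P c k *
        (∑ l, C.g' b l * C.geo.chr l c a + ∑ l, C.g' a l * C.geo.chr l c b) := fun a b => by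
      rw [C.D_eq]
      exact Finset.sum_congr rfl fun c _ => congrArg _ (C.geo.compat c a b)
    simp only [gQ]
    simp only [C.gg, map_sum, D_mul, h1]
    simp only [Fin.sum_univ_four, symm4 C.gs]
    ring

theorem P_cd (V : Fin 4 → A) (c i : Fin 4) : ∑ k, C.P c k * X.cd V k i =
    ∑ a, C.P a i * C.geo.cd (fun b => ∑ j, C.P b j * V j) c a := by
  have h1 : ∀ j, ∑ k, C.P c k * X.chr k i j =
      X.D i (C.P c j) + ∑ a, ∑ b, C.P a i * C.P b j * C.geo.chr c a b := fun j => by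
    simp only [chr_eq C, C.PQ_c]
  have h2 := C.D_eq i (∑ j, C.P c j * V j)
  have a0 := h1 0; have a1 := h1 1; have a2 := h1 2; have a3 := h1 3
  rw [map_sum] at h2
  simp only [D_mul] at h2
  simp only [cd, Fin.sum_univ_four] at h2 a0 a1 a2 a3 ⊢
  linear_combination h2 + V 0 * a0 + V 1 * a1 + V 2 * a2 + V 3 * a3

theorem dvg_eq' (V : Fin 4 → A) : X.dvg V = C.geo.dvg fun b => ∑ j, C.P b j * V j := by
  rw [dvg_cd, dvg_cd]
  rw [Finset.sum_congr rfl fun i _ => (C.QP_c (fun k => X.cd V k i) i).symm]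
  simp only [P_cd]
  rw [Finset.sum_comm]
  exact Finset.sum_congr rfl fun c _ => C.PQ_t _ c

theorem push_grad (φ : A) (a : Fin 4) : ∑ i, C.P a i * X.grad φ i = C.geo.grad φ a := by
  simp only [grad, push_up, geo_D]; rfl

theorem lap_eq' (φ : A) : X.lap φ = C.geo.lap φ := by
  simp only [lap, dvg_eq' C, push_grad]

/-- The Jacobian matrix. -/
def Pm : Matrix (Fin 4) (Fin 4) A := Matrix.of C.P

/-- The connection matrices of the new coordinates along the old directions. -/
noncomputable def ch (i : Fin 4) : Matrix (Fin 4) (Fin 4) A :=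
  Matrix.of fun k l => ∑ a, C.P a i * C.geo.chr k a l

theorem Pm_cm (i : Fin 4) : C.Pm * X.cm i = X.Dm i C.Pm + C.ch i * C.Pm := by
  ext c j
  simp only [Pm, cm, Dm, ch, Matrix.mul_apply, Matrix.add_apply, Matrix.of_apply, chr_eq C, C.PQ_c]
  simp only [Fin.sum_univ_four]
  ring

theorem Pm_fm (i j : Fin 4) : C.Pm * X.fm i j =
    (X.Dm i (C.ch j) - X.Dm j (C.ch i) + C.ch i * C.ch j - C.ch j * C.ch i) * C.Pm := by
  have h1 := congrArg (X.Dm i) (C.Pm_cm j)
  have h2 := congrArg (X.Dm j) (C.Pm_cm i)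
  simp only [Dm_mul, Dm_add, X.Dm_comm j i] at h1 h2
  rw [fm]
  linear_combination (norm := noncomm_ring) h1 - h2 + C.Pm_cm i * X.cm j - C.Pm_cm j * X.cm i
    + C.ch i * C.Pm_cm j - C.ch j * C.Pm_cm i

theorem fh_eq (i j k l : Fin 4) :
    (X.Dm i (C.ch j) - X.Dm j (C.ch i) + C.ch i * C.ch j - C.ch j * C.ch i) k l =
      ∑ a, C.P a i * ∑ b, C.P b j * C.geo.fm a b k l := by
  simp only [fm, Dm, ch, cm, Matrix.of_apply, Matrix.sub_apply, Matrix.add_apply, Matrix.mul_apply,
    map_sum, D_mul, fun b => C.DP b j i, fun m b => C.D_eq m (C.geo.chr k b l)]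
  simp only [Fin.sum_univ_four]
  ring

theorem ric_eq' (l j : Fin 4) : X.ric l j = ∑ d, C.P d l * ∑ b, C.P b j * C.geo.ric d b := by
  have h1 : ∀ k c, ∑ m, C.P c m * X.fm k j m l =
      ∑ a, C.P a k * ∑ d, C.P d l * ∑ b, C.P b j * C.geo.fm a b c d := fun k c => by
    have := congrFun (congrFun (C.Pm_fm k j) c) l
    rw [Matrix.mul_apply, Matrix.mul_apply] at this
    simp only [fh_eq] at this
    simp only [Pm, Matrix.of_apply] at this
    rw [this]
    simp only [Fin.sum_univ_four]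
    ring
  rw [ric_eq]
  rw [Finset.sum_congr rfl fun k _ => (C.QP_c (fun m => X.fm k j m l) k).symm]
  simp only [h1]
  rw [Finset.sum_comm]
  simp only [C.PQ_t, ric_eq]
  simp only [Fin.sum_univ_four]
  ring

theorem push_ricGrad (φ : A) (a : Fin 4) : ∑ i, C.P a i * X.ricGrad φ i = C.geo.ricGrad φ a := by
  have h1 : ∀ (Y : Geo A) i, Y.ricGrad φ i = ∑ j, Y.h i j * ∑ k, Y.ric j k * Y.grad φ k := by
    intro Y i; simp only [ricGrad, Finset.mul_sum, mul_assoc]
  have h2 : ∀ j, ∑ k, X.ric j k * X.grad φ k =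
      ∑ d, C.P d j * ∑ b, C.geo.ric d b * C.geo.grad φ b := fun j => by
    simp only [ric_eq' C, ← push_grad, Fin.sum_univ_four]; ring
  simp only [h1, push_up, h2, C.PQ_t]; rfl

/-- The Ricci tensor as a matrix. -/
noncomputable def rm (Y : Geo A) : Matrix (Fin 4) (Fin 4) A := Matrix.of Y.ric

theorem rm_eq : rm X = C.Pm.transpose * rm C.geo * C.Pm := by
  ext l j
  simp only [rm, Pm, Matrix.mul_apply, Matrix.of_apply, Matrix.transpose_apply, ric_eq' C,
    Fin.sum_univ_four]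
  ring

theorem hm_eq : C.Pm * X.hm * C.Pm.transpose = C.geo.hm := by
  ext a b
  have h := C.push_up (fun j => C.P b j) a
  simp only [fun j c => mul_comm (C.Q j c) (C.P b j), C.PQ, mul_ite, mul_one, mul_zero, Finset.sum_ite_eq,
    Finset.mem_univ, if_true] at h
  simp only [hm, Pm, Matrix.mul_apply, Matrix.of_apply, Matrix.transpose_apply,
    Fin.sum_univ_four] at h ⊢
  change _ = C.h' a b
  linear_combination h

theorem scal_tr (Y : Geo A) : Y.scal = (Y.hm * rm Y).trace := by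
  simp only [scal_eq, rup, hm, rm, Matrix.trace, Matrix.diag, Matrix.mul_apply, Matrix.of_apply]

theorem ricSq_tr (Y : Geo A) : Y.ricSq = (Y.hm * rm Y * (Y.hm * rm Y)).trace := by
  simp only [ricSq, hm, rm, Matrix.trace, Matrix.diag, Matrix.mul_apply, Matrix.of_apply,
    Fin.sum_univ_four, symm4 Y.hs, symm4 Y.ric_symm]
  ring

theorem scal_eq' : X.scal = C.geo.scal := by
  rw [scal_tr, scal_tr, C.rm_eq, ← C.hm_eq, ← Matrix.mul_assoc, Matrix.trace_mul_comm]
  simp only [Matrix.mul_assoc]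

theorem ricSq_eq' : X.ricSq = C.geo.ricSq := by
  rw [ricSq_tr, ricSq_tr, C.rm_eq, ← C.hm_eq]
  simp only [← Matrix.mul_assoc]
  rw [Matrix.trace_mul_comm]
  simp only [← Matrix.mul_assoc]

theorem pan2_eq (φ : A) :
    (X.dvg fun i => (2 / 3 : ℝ) • (X.scal * X.grad φ i) - 2 * X.ricGrad φ i) =
      C.geo.dvg fun i => (2 / 3 : ℝ) • (C.geo.scal * C.geo.grad φ i) - 2 * C.geo.ricGrad φ i := by
  rw [dvg_eq' C]
  congr 1
  funext a
  simp only [← push_grad, ← push_ricGrad, ← scal_eq', Fin.sum_univ_four]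
  algebra

theorem pan_eq' (φ : A) : X.pan φ = C.geo.pan φ := by
  rw [pan, pan, pan2_eq C, lap_eq' C, lap_eq' C]

theorem qcurv_eq' : X.qcurv = C.geo.qcurv := by
  rw [qcurv, qcurv, lap_eq' C, scal_eq' C, ricSq_eq' C]

end Chg

variable (X)

theorem D_det (k : Fin 4) (G : Matrix (Fin 4) (Fin 4) A) :
    X.D k G.det = ∑ i, (G.updateRow i fun j => X.D k (G i j)).det := by
  simp [Matrix.det_succ_row_zero, Fin.sum_univ_succ, Matrix.updateRow_apply, Fin.succAbove]
  ring

theorem D_det_g (k : Fin 4) : X.D k (Matrix.of X.g).det = 2 * X.γ k * (Matrix.of X.g).det := by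
  have h1 : ∀ i, (fun j => X.D k (Matrix.of X.g i j)) =
      ∑ m, (∑ l, X.h m l * X.D k (X.g i l)) • Matrix.of X.g m := fun i => by
    funext j
    simp only [Matrix.of_apply, Finset.sum_apply, Pi.smul_apply, smul_eq_mul, fun m => X.gs m j,
      mul_comm _ (X.g j _), X.dn_up]
  have h2 : ∑ i, ∑ l, X.h i l * X.D k (X.g i l) = 2 * X.γ k := by
    have b0 := X.up_dn (fun a => X.chr a k 0) 0
    have b1 := X.up_dn (fun a => X.chr a k 1) 1
    have b2 := X.up_dn (fun a => X.chr a k 2) 2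
    have b3 := X.up_dn (fun a => X.chr a k 3) 3
    simp only [X.compat, γ, fun a => X.chr_symm a a k, Fin.sum_univ_four, symm4 X.hs] at *
    linear_combination 2 * (b0 + b1 + b2 + b3)
  simp only [D_det, h1, Matrix.det_updateRow_sum, smul_eq_mul, ← Finset.sum_mul, h2]

theorem dvg_density {ρ ρ' : A} (h1 : ρ' * ρ = 1) (h2 : ρ * ρ = (Matrix.of X.g).det)
    (V : Fin 4 → A) : X.dvg V = ρ' * ∑ a, X.D a (ρ * V a) := by
  have h3 : ∀ k, ρ' * X.D k ρ = X.γ k := fun k => by
    have := X.D_det_g k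
    rw [← h2, D_mul] at this
    exact two_cancel (by
      linear_combination ρ' ^ 2 * this + (2 * X.γ k * (ρ' * ρ + 1) - 2 * ρ' * X.D k ρ) * h1)
  simp only [dvg_eq, D_mul, ← h3, Fin.sum_univ_four]
  linear_combination -(X.D 0 (V 0) + X.D 1 (V 1) + X.D 2 (V 2) + X.D 3 (V 3)) * h1

end Geo

end Pool.Agent.MP_417fa2_gt

end MrgPart1

-- marker of a merged file
example : 731051 + 335000 = 731051 + 335000 := rfl
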