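import Mathlib.MeasureTheory.Measure.Haar.OfBasis
import Mathlib.Analysis.Normed.Lp.MeasurableSpace
import Mathlib.Geometry.Manifold.Instances.Real
import Mathlib.Geometry.Manifold.VectorBundle.Riemannian

/-!
Riemannian 4-manifolds: curvature, Paneitz operator and Q-curvature in local coordinates,
the Riemannian volume, and the flow `∂g/∂t = -(P_g Q_g) g`.
-/

open scoped Manifold ContDiff
open MeasureTheory

namespace Pool.Agent.MP_417fa2_gt

/-- Euclidean 4-space, the model of the manifold. -/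
abbrev E4 : Type := EuclideanSpace ℝ (Fin 4)

/-- The partial derivative `∂f/∂yᵢ`. -/
noncomputable def pd (i : Fin 4) (f : E4 → ℝ) (y : E4) : ℝ :=
  fderiv ℝ f y (EuclideanSpace.single i 1)

section Coordinates

variable (G : E4 → Matrix (Fin 4) (Fin 4) ℝ)

/-- The inverse matrix `g^{ij}` of the metric `g_{ij}`. -/
noncomputable def ginv (i j : Fin 4) (y : E4) : ℝ := (G y)⁻¹ i j

/-- Christoffel symbols `Γ^k_{ij} = ½ g^{kl} (∂ᵢ g_{lj} + ∂ⱼ g_{li} - ∂ₗ g_{ij})`. -/
noncomputable def chr (k i j : Fin 4) (y : E4) : ℝ :=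
  1 / 2 * ∑ l, ginv G k l y *
    (pd i (fun z => G z l j) y + pd j (fun z => G z l i) y - pd l (fun z => G z i j) y)

/-- Ricci tensor `R_{ij} = ∂ₖ Γ^k_{ij} - ∂ⱼ Γ^k_{ik} + Γ^k_{kl} Γ^l_{ij} - Γ^k_{jl} Γ^l_{ik}`. -/
noncomputable def ric (i j : Fin 4) (y : E4) : ℝ :=
  ∑ k, (pd k (chr G k i j) y - pd j (chr G k i k) y) +
    ∑ k, ∑ l, (chr G k k l y * chr G l i j y - chr G k j l y * chr G l i k y)

/-- Scalar curvature `R = g^{ij} R_{ij}`. -/
noncomputable def scal (y : E4) : ℝ := ∑ i, ∑ j, ginv G i j y * ric G i j y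

/-- The squared norm `|Ric|² = g^{ik} g^{jl} R_{ij} R_{kl}`. -/
noncomputable def ricSq (y : E4) : ℝ :=
  ∑ i, ∑ j, ∑ k, ∑ l, ginv G i k y * ginv G j l y * ric G i j y * ric G k l y

/-- Gradient `(∇φ)^i = g^{ij} ∂ⱼ φ`. -/
noncomputable def grad (φ : E4 → ℝ) (i : Fin 4) (y : E4) : ℝ := ∑ j, ginv G i j y * pd j φ y

/-- Divergence `div X = ∂ᵢ X^i + Γ^i_{ik} X^k`. -/
noncomputable def dvg (X : Fin 4 → E4 → ℝ) (y : E4) : ℝ :=
  ∑ i, (pd i (X i) y + ∑ k, chr G i i k y * X k y)

/-- Laplacian `Δ = div ∇`. -/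
noncomputable def lap (φ : E4 → ℝ) : E4 → ℝ := dvg G (grad G φ)

/-- The vector field `Ric(∇φ)^i = g^{ij} R_{jk} (∇φ)^k`. -/
noncomputable def ricGrad (φ : E4 → ℝ) (i : Fin 4) (y : E4) : ℝ :=
  ∑ j, ∑ k, ginv G i j y * ric G j k y * grad G φ k y

/-- Paneitz operator `Pφ = Δ²φ - div (⅔ R ∇φ - 2 Ric(∇φ))`. -/
noncomputable def pan (φ : E4 → ℝ) (y : E4) : ℝ :=
  lap G (lap G φ) y - dvg G (fun i z => 2 / 3 * scal G z * grad G φ i z - 2 * ricGrad G φ i z) y

/-- Q-curvature `Q = -(ΔR - R² + 3 |Ric|²) / 12`. -/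
noncomputable def qcurv (y : E4) : ℝ :=
  -(1 / 12) * (lap G (scal G) y - scal G y ^ 2 + 3 * ricSq G y)

end Coordinates

universe u

section General

variable {E H : Type} [NormedAddCommGroup E] [NormedSpace ℝ E] [TopologicalSpace H]
  (I : ModelWithCorners ℝ E H) {M : Type u} [TopologicalSpace M] [ChartedSpace H M]

/-- The differential `dc_y(v)` of a map `c` from the model vector space to the manifold. -/
noncomputable def dparam (c : E → M) (y v : E) : TangentSpace I (c y) :=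
  mfderiv 𝓘(ℝ, E) I c y v

/-- Smooth Riemannian metrics on a manifold. -/
abbrev Metrics (M : Type u) [TopologicalSpace M] [ChartedSpace H M] [IsManifold I ∞ M] : Type u :=
  Bundle.ContMDiffRiemannianMetric I ∞ E (fun x : M => TangentSpace I x)

variable {I} in
/-- The scalar product `g_x(v, w)`. -/
noncomputable def gin [IsManifold I ∞ M] (g : Metrics I M) (x : M) (v w : TangentSpace I x) : ℝ :=
  g.inner x v w

end General

/-- Smooth Riemannian metrics on the 4-manifold `M`. -/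
abbrev RMetric (M : Type u) [TopologicalSpace M] [ChartedSpace E4 M] [IsManifold (𝓡 4) ∞ M] :
    Type u :=
  Metrics (𝓡 4) M

variable {M : Type u} [TopologicalSpace M] [ChartedSpace E4 M]

/-- Smooth real functions on `M`. -/
def Smooth (φ : M → ℝ) : Prop := ContMDiff (𝓡 4) 𝓘(ℝ, ℝ) ∞ φ

/-- The inverse of the chart at `x₀`: local coordinates to points of `M`. -/
noncomputable def param (x₀ : M) : E4 → M := (chartAt E4 x₀).symm

/-- The coordinate vector `∂/∂yᵢ` of the chart at `x₀`, at the point with coordinates `y`. -/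
noncomputable def coordVec (x₀ : M) (y : E4) (i : Fin 4) : TangentSpace (𝓡 4) (param x₀ y) :=
  dparam (𝓡 4) (param x₀) y (EuclideanSpace.single i 1)

variable [IsManifold (𝓡 4) ∞ M]

/-- The matrix `g_{ij}` of the metric in the chart at `x₀`. -/
noncomputable def gmat (g : RMetric M) (x₀ : M) (y : E4) : Matrix (Fin 4) (Fin 4) ℝ :=
  Matrix.of fun i j => gin g (param x₀ y) (coordVec x₀ y i) (coordVec x₀ y j)

/-- The Paneitz operator of `g`, computed at `x` in the chart at `x`. -/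
noncomputable def paneitz (g : RMetric M) (φ : M → ℝ) (x : M) : ℝ :=
  pan (gmat g x) (φ ∘ param x) (chartAt E4 x x)

/-- The Q-curvature of `g`, computed at `x` in the chart at `x`. -/
noncomputable def qCurv (g : RMetric M) (x : M) : ℝ := qcurv (gmat g x) (chartAt E4 x x)

/-- `μ` is the Riemannian volume of `g`: it is `√(det g_{ij}) dy` in every chart. -/
def IsVolume [MeasurableSpace M] (g : RMetric M) (μ : Measure M) : Prop :=
  ∀ (x₀ : M) (s : Set M), MeasurableSet s → s ⊆ (chartAt E4 x₀).source →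
    μ s = ∫⁻ y in chartAt E4 x₀ '' s, ENNReal.ofReal (Real.sqrt (gmat g x₀ y).det)

/-- The Riemannian volume measure `dv_g`. -/
noncomputable def vol [MeasurableSpace M] (g : RMetric M) : Measure M :=
  Classical.epsilon (IsVolume g)

/-- The family of metrics `γ` is smooth in `(t, x)` on the time set `I`. -/
def SmoothFamily (I : Set ℝ) (γ : ℝ → RMetric M) : Prop :=
  ∀ (x₀ : M) (i j : Fin 4), ContDiffOn ℝ ∞
    (fun p : ℝ × E4 => gmat (γ p.1) x₀ p.2 i j) (I ×ˢ (chartAt E4 x₀).target)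

/-- The family of metrics `γ` satisfies `∂g/∂t = -(P_g Q_g) g` on the time set `I`. -/
def FlowEq (I : Set ℝ) (γ : ℝ → RMetric M) : Prop :=
  ∀ t ∈ I, ∀ (x : M) (v w : TangentSpace (𝓡 4) x),
    HasDerivWithinAt (fun s => gin (γ s) x v w)
      (-(paneitz (γ t) (qCurv (γ t)) x) * gin (γ t) x v w) I t

/-- `γ` is a smooth family of metrics on the time set `I` that solves `∂g/∂t = -(P_g Q_g) g`. -/
structure IsFlow (I : Set ℝ) (γ : ℝ → RMetric M) : Prop where
  smooth : SmoothFamily I γ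
  eqn : FlowEq I γ

end Pool.Agent.MP_417fa2_gt
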